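import Pool.Agent.FKT.Main

/-! MP_297146_al: the canonical bilinear form on the Fomin-Kirillov algebra `E_n` is degenerate
for every `n ≥ 6`. -/

namespace Pool.Agent.Results.MP_297146_al.DegenerateFromSix

open Pool.Agent.H71.FK

/-- For every `n ≥ 6` there is a nonzero element `P` of the Fomin-Kirillov algebra `E (Fin n)`,
homogeneous of degree `14` (a linear combination of monomials of words of length `14`), which is
orthogonal to every element. -/
theorem result (n : ℕ) (hn : 6 ≤ n) :
    ∃ P : E (Fin n), P ≠ 0 ∧
      P ∈ Submodule.span ℚ {m | ∃ l : List (Fin n × Fin n), l.length = 14 ∧ mon l = m} ∧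
      ∀ Q : E (Fin n), form P Q = 0 :=
  Pool.Agent.FKC.up Pool.Agent.FKT.main6 n hn

end Pool.Agent.Results.MP_297146_al.DegenerateFromSix
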