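import Pool.Agent.H71.FK.Main

/-! MP_297146_al: for every `n` the canonical form of the Fomin-Kirillov algebra has no kernel
in the span of the planar monomials and of the monomials of excess at most two. -/

namespace Pool.Agent.Results.MP_297146_al.PlanarAndLowExcess

open Pool.Agent.H71.FK

variable {n : ℕ}

/-- The product in `S_n` of the transpositions of the letters of a word. -/
def perm (l : List (Fin n × Fin n)) : Equiv.Perm (Fin n) :=
  (l.map fun p => Equiv.swap p.1 p.2).prod

/-- The number of connected components of the graph on the vertex set `Fin n` whose edges are the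
letters of the word (isolated vertices count). -/
noncomputable def comps (l : List (Fin n × Fin n)) : ℕ :=
  Nat.card (Quotient (Relation.EqvGen.setoid fun a b => (a, b) ∈ l))

/-- The number of cycles of a permutation (fixed points count). -/
noncomputable def cycles (w : Equiv.Perm (Fin n)) : ℕ :=
  Nat.card (Quotient (Equiv.Perm.SameCycle.setoid w))

theorem lab_w (l : List (Fin n × Fin n)) : (lab l).w = perm l := by
  induction l with
  | nil => rfl
  | cons p l ih => rw [lab_cons, Lab.mul_w, lt_w, ih]; simp [perm]

theorem lab_s (l : List (Fin n × Fin n)) :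
    (lab l).s = Relation.EqvGen.setoid fun a b => (a, b) ∈ l := by
  have hgen : ∀ l : List (Fin n × Fin n), ∀ a b, (a, b) ∈ l → (lab l).s a b := by
    intro l
    induction l with
    | nil => intro a b h; simp at h
    | cons p l ih =>
      intro a b h
      have e : (lab (p :: l)).s = (lab l).s ⊔ gen p.1 p.2 := by
        rw [lab_cons, Lab.mul_s, lt_s, sup_comm]
      rw [e]
      rw [List.mem_cons] at h
      rcases h with rfl | h
      · exact gen_le.1 le_sup_right
      · have h1 : (lab l).s ≤ (lab l).s ⊔ gen p.1 p.2 := le_sup_left
        exact h1 (ih a b h)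
  have hle : ∀ (l : List (Fin n × Fin n)) (s : Setoid (Fin n)),
      (∀ p ∈ l, s p.1 p.2) → (lab l).s ≤ s := by
    intro l s hs
    induction l with
    | nil => exact bot_le
    | cons p l ih =>
      rw [lab_cons, Lab.mul_s, lt_s]
      exact sup_le (gen_le.2 (hs p (by simp))) (ih fun q hq => hs q (by simp [hq]))
  apply le_antisymm
  · apply hle
    rintro ⟨a, b⟩ hp
    exact Relation.EqvGen.rel a b hp
  · intro a b h
    induction h with
    | rel a b h => exact hgen l a b h
    | refl a => exact Setoid.refl' _ a
    | symm a b _ ih => exact Setoid.symm' _ ih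
    | trans a b c _ _ ih ih' => exact Setoid.trans' _ ih ih'

/-- For every `n`: an element `P` of the Fomin-Kirillov algebra `E (Fin n)` which is a linear
combination of monomials `mon l` such that
`length l + 2 comps l = n + cycles (perm l)` (planar words) or
`length l + comps l ≤ n + 2` (words of excess at most two),
and which is orthogonal to everything, is zero. -/
theorem result (n : ℕ) (P : E (Fin n))
    (hP : P ∈ Submodule.span ℚ {p | ∃ l : List (Fin n × Fin n),
      (l.length + 2 * comps l = n + cycles (perm l) ∨ l.length + comps l ≤ n + 2) ∧ mon l = p})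
    (h : ∀ Q : E (Fin n), form P Q = 0) : P = 0 := by
  have h1 : P ∈ Sp Finset.univ (Cl : Lab (Fin n) → Prop) := by
    refine (Submodule.span_le.2 ?_) hP
    rintro p ⟨l, hl, rfl⟩
    rcases mon_eq_zero_or_In l with h0 | h0
    · rw [h0]; exact Submodule.zero_mem _
    · apply mon_mem_Sp h0
      rcases hl with hl | hl
      · left
        unfold Planar orb cls
        rw [lab_d, lab_s, lab_w, Fintype.card_fin]
        exact hl
      · right
        unfold Low cls
        rw [lab_d, lab_s, Fintype.card_fin]
        exact hl
  obtain ⟨r, hr⟩ := Sp_bdd h1
  exact radical_zero r P hr h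

end Pool.Agent.Results.MP_297146_al.PlanarAndLowExcess
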